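import Mathlib

open Filter Topology

namespace Pool.Agent.Results.MP_840660_pr.TwoMax

/-- Nearest neighbours in `ℤ²`. -/
def Adj (x y : ℤ × ℤ) : Prop := |x.1 - y.1| + |x.2 - y.2| = 1

open Classical in
/-- The matrix `F` for `d = 2`. -/
noncomputable def F (β γ : ℝ) (x y : ℤ × ℤ) : ℝ :=
  if x = y then -β else if Adj x y then γ / (2 * 2) else 0

/-- The quadratic form. -/
noncomputable def Q (β γ : ℝ) (f : ℤ × ℤ → ℝ) : ℝ := ∑' x, ∑' y, f x * F β γ x y * f y

/-- Endpoint-corrected local time of the first `n` steps of `w`. -/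
noncomputable def lt (n : ℕ) (w : ℕ → ℤ × ℤ) (x : ℤ × ℤ) : ℝ :=
  (((Finset.range (n + 1)).filter fun i => w i = x).card : ℝ) -
    (if w 0 = x then 1 / 2 else 0) - (if w n = x then 1 / 2 else 0)

/-- The class of limiting normalised local times. -/
def InF (f : ℤ × ℤ → ℝ) : Prop :=
  (∀ x, 0 ≤ f x) ∧ HasSum f 1 ∧ ∃ (n : ℕ → ℕ) (w : ℕ → ℕ → ℤ × ℤ), Tendsto n atTop atTop ∧
    (∀ k, ∀ i < n k, Adj (w k (i + 1)) (w k i)) ∧
    ∀ x, Tendsto (fun k => lt (n k) (w k) x / n k) atTop (𝓝 (f x))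

/-- Maximisers. -/
def IsMax (β γ : ℝ) (f : ℤ × ℤ → ℝ) : Prop := InF f ∧ ∀ h, InF h → Q β γ h ≤ Q β γ f

/-- Unit vectors. -/
def D4 : Finset (ℤ × ℤ) := {(1, 0), (-1, 0), (0, 1), (0, -1)}

/-- Sums of two unit vectors. -/
def D9 : Finset (ℤ × ℤ) :=
  {(0, 0), (1, 1), (-1, -1), (1, -1), (-1, 1), (2, 0), (0, 2), (-2, 0), (0, -2)}

/-- Neighbour sum. -/
def S (u : ℤ × ℤ → ℝ) (y : ℤ × ℤ) : ℝ := ∑ d ∈ D4, u (y + d)

theorem corner {a b c d p q r s : ℝ} (ha : 0 ≤ a) (hb : 0 ≤ b) (hc : 0 ≤ c) (hd : 0 ≤ d)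
    (hp : 0 ≤ p) (hq : 0 ≤ q) (hr : 0 ≤ r) (hs : 0 ≤ s) (h : b + d ≤ a + c) :
    p * (a - b - c - d) + q * (b - a - c - d) + r * (c - a - b - d) + s * (d - a - b - c) ≤
      p ^ 2 + q ^ 2 + r ^ 2 + s ^ 2 + ((a - b + c - d) / 2) ^ 2 := by
  have h1 : q * (b - a - c - d) ≤ 0 := mul_nonpos_of_nonneg_of_nonpos hq (by linarith)
  have h2 : s * (d - a - b - c) ≤ 0 := mul_nonpos_of_nonneg_of_nonpos hs (by linarith)
  rcases le_total a c with e | e
  · have h3 : p * (a - b - c - d) ≤ 0 := mul_nonpos_of_nonneg_of_nonpos hp (by linarith)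
    nlinarith [sq_nonneg (r - (a - b + c - d) / 2), mul_nonneg hr ha, sq_nonneg p, sq_nonneg q,
      sq_nonneg s]
  · have h3 : r * (c - a - b - d) ≤ 0 := mul_nonpos_of_nonneg_of_nonpos hr (by linarith)
    nlinarith [sq_nonneg (p - (a - b + c - d) / 2), mul_nonneg hp hc, sq_nonneg r, sq_nonneg q,
      sq_nonneg s]

theorem fin9 {u v : ℤ × ℤ → ℝ} (hu : ∀ x, 0 ≤ u x) (hv : ∀ x, 0 ≤ v x) :
    ∑ y ∈ D4, v y * (2 * S u y - ∑ x ∈ D9, u x) ≤ ∑ y ∈ D4, v y ^ 2 + ∑ x ∈ D9, u x ^ 2 := by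
  simp only [S, D4, D9]
  repeat rw [Finset.sum_insert (by decide)]
  simp only [Finset.sum_singleton, Prod.mk_add_mk]
  norm_num
  have k1 := sq_nonneg (u (0, 0) - (v (1, 0) + v (0, 1) + v (-1, 0) + v (0, -1)) / 2)
  have k2 := sq_nonneg (u (1, 1) - u (-1, -1) - (v (1, 0) + v (0, 1) - v (-1, 0) - v (0, -1)) / 2)
  have k3 := sq_nonneg (u (1, -1) - u (-1, 1) - (v (1, 0) - v (0, 1) - v (-1, 0) + v (0, -1)) / 2)
  have k4 := mul_nonneg (hu (1, 1)) (hu (-1, -1))
  have k5 := mul_nonneg (hu (1, -1)) (hu (-1, 1))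
  rcases le_total (v (0, 1) + v (0, -1)) (v (1, 0) + v (-1, 0)) with e | e
  · have := corner (hv (1, 0)) (hv (0, 1)) (hv (-1, 0)) (hv (0, -1)) (hu (2, 0)) (hu (0, 2))
      (hu (-2, 0)) (hu (0, -2)) e
    nlinarith
  · have := corner (hv (0, 1)) (hv (1, 0)) (hv (0, -1)) (hv (-1, 0)) (hu (0, 2)) (hu (2, 0))
      (hu (0, -2)) (hu (-2, 0)) e
    nlinarith

theorem sq_sum {u : ℤ × ℤ → ℝ} (hu : ∀ x, 0 ≤ u x) (su : Summable u) :
    Summable fun x => u x ^ 2 :=
  Summable.of_nonneg_of_le (fun _ => sq_nonneg _) (fun x => by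
    rw [sq]; exact mul_le_mul_of_nonneg_left (su.le_tsum x fun y _ => hu y) (hu x))
    (su.mul_right _)

theorem S_sum {u v : ℤ × ℤ → ℝ} (hu : ∀ x, 0 ≤ u x) (hv : ∀ x, 0 ≤ v x) (su : Summable u)
    (sv : Summable v) : Summable fun y => v y * S u y :=
  Summable.of_nonneg_of_le (fun y => mul_nonneg (hv y) (Finset.sum_nonneg fun _ _ => hu _))
    (fun y => mul_le_mul_of_nonneg_left (Finset.sum_le_sum (g := fun _ => ∑' x, u x)
      fun d _ => su.le_tsum _ fun z _ => hu z) (hv y)) (sv.mul_right _)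

theorem g_sum {u v : ℤ × ℤ → ℝ} (hu : ∀ x, 0 ≤ u x) (hv : ∀ x, 0 ≤ v x) (su : Summable u)
    (sv : Summable v) : HasSum (fun y => v y * (2 * S u y - ∑' x, u x))
      (2 * (∑' y, v y * S u y) - (∑' y, v y) * ∑' x, u x) := by
  have := ((S_sum hu hv su sv).hasSum.mul_left 2).sub (sv.hasSum.mul_right (∑' x, u x))
  rw [show (fun y => v y * (2 * S u y - ∑' x, u x)) =
    fun y => 2 * (v y * S u y) - v y * ∑' x, u x from funext fun y => by ring]
  exact this

theorem core0 {u v : ℤ × ℤ → ℝ} (hu : ∀ x, 0 ≤ u x) (hv : ∀ x, 0 ≤ v x) (su : Summable u)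
    (sv : Summable v) (h : ∀ y ∉ D4, v y * (2 * S u y - ∑' x, u x) ≤ 0) :
    ∑' y, v y * (2 * S u y - ∑' x, u x) ≤ ∑' y, v y ^ 2 + ∑' x, u x ^ 2 := by
  have g := (g_sum hu hv su sv).summable
  have a := g.neg.sum_le_tsum D4 fun y hy => neg_nonneg.2 (h y hy)
  rw [tsum_neg, Finset.sum_neg_distrib, neg_le_neg_iff] at a
  have b := (sq_sum hv sv).sum_le_tsum D4 fun y _ => sq_nonneg _
  have c := (sq_sum hu su).sum_le_tsum D9 fun y _ => sq_nonneg _
  have d := su.sum_le_tsum D9 fun y _ => hu y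
  have e : ∑ y ∈ D4, v y * (2 * S u y - ∑' x, u x) ≤ ∑ y ∈ D4, v y * (2 * S u y - ∑ x ∈ D9, u x) :=
    Finset.sum_le_sum fun y _ => mul_le_mul_of_nonneg_left (by linarith) (hv y)
  linarith [fin9 hu hv]

theorem two {u : ℤ × ℤ → ℝ} (hu : ∀ x, 0 ≤ u x) (su : Summable u) {y z : ℤ × ℤ}
    (h : y.1 + y.2 + 2 < z.1 + z.2 ∨ y.1 - y.2 + 2 < z.1 - z.2) : S u y + S u z ≤ ∑' x, u x := by
  have e : ∀ t : ℤ × ℤ, S u t = ∑ x ∈ D4.map (Equiv.addLeft t).toEmbedding, u x := fun t => by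
    simp [S]
  rw [e, e, ← Finset.sum_union]
  · exact su.sum_le_tsum _ fun x _ => hu x
  · rw [Finset.disjoint_left]
    intro x h1 h2
    simp only [D4, Finset.mem_map, Finset.mem_insert, Finset.mem_singleton,
      Equiv.coe_toEmbedding, Equiv.coe_addLeft] at h1 h2
    obtain ⟨a, ha, rfl⟩ := h1
    obtain ⟨b, hb, h2⟩ := h2
    rw [Prod.ext_iff] at h2
    rcases ha with rfl | rfl | rfl | rfl <;> rcases hb with rfl | rfl | rfl | rfl <;>
      simp only [Prod.fst_add, Prod.snd_add] at h2 <;> omega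

theorem core {u v : ℤ × ℤ → ℝ} (hu : ∀ x, 0 ≤ u x) (hv : ∀ x, 0 ≤ v x) (su : Summable u)
    (sv : Summable v) {r : ℤ} (hr : ∀ y, v y ≠ 0 → (y.1 + y.2) % 2 = r) :
    2 * (∑' y, v y * S u y) - (∑' y, v y) * ∑' x, u x ≤ ∑' y, v y ^ 2 + ∑' x, u x ^ 2 := by
  obtain ⟨c, hc⟩ : ∃ c : ℤ × ℤ, ∀ y ∉ D4, v (c + y) * (2 * S u (c + y) - ∑' x, u x) ≤ 0 := by
    let Y : ℤ × ℤ → Prop := fun y => (y.1 + y.2) % 2 = r ∧ ∑' x, u x < 2 * S u y
    have hY : ∀ y, ¬ Y y → v y * (2 * S u y - ∑' x, u x) ≤ 0 := fun y h => by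
      by_cases e : v y = 0
      · simp [e]
      · exact mul_nonpos_of_nonneg_of_nonpos (hv y) (sub_nonpos.2 (not_lt.1 fun k =>
          h ⟨hr y e, k⟩))
    have cl : ∀ y z, Y y → Y z → z.1 + z.2 ≤ y.1 + y.2 + 2 ∧ z.1 - z.2 ≤ y.1 - y.2 + 2 :=
      fun y z hy hz => by
        by_contra k
        linarith [two hu su (y := y) (z := z) (by omega), hy.2, hz.2]
    by_cases ne : ∃ y, Y y
    · obtain ⟨y0, h0⟩ := ne
      obtain ⟨p, ⟨y1, h1, e1⟩, hp⟩ := Int.exists_least_of_bdd (P := fun p => ∃ y, Y y ∧ y.1 + y.2 = p)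
        ⟨y0.1 + y0.2 - 2, fun p ⟨y, hy, e⟩ => by have := cl y y0 hy h0; omega⟩ ⟨_, y0, h0, rfl⟩
      obtain ⟨q, ⟨y2, h2, e2⟩, hq⟩ := Int.exists_least_of_bdd (P := fun p => ∃ y, Y y ∧ y.1 - y.2 = p)
        ⟨y0.1 - y0.2 - 2, fun p ⟨y, hy, e⟩ => by have := cl y y0 hy h0; omega⟩ ⟨_, y0, h0, rfl⟩
      have r1 := h1.1
      have r2 := h2.1
      refine ⟨((p + q + 2) / 2, (p - q) / 2), fun y hy => hY _ fun k => hy ?_⟩
      have a1 := hp _ ⟨_, k, rfl⟩
      have a2 := hq _ ⟨_, k, rfl⟩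
      have a3 := (cl _ _ h1 k).1
      have a4 := (cl _ _ h2 k).2
      have a5 := k.1
      simp only [Prod.fst_add, Prod.snd_add] at a1 a2 a3 a4 a5
      simp only [D4, Finset.mem_insert, Finset.mem_singleton, Prod.ext_iff]
      omega
    · exact ⟨0, fun y _ => hY _ fun k => ne ⟨_, k⟩⟩
  have t : ∀ g : ℤ × ℤ → ℝ, ∑' x, g (c + x) = ∑' x, g x := fun g => (Equiv.addLeft c).tsum_eq g
  have s : ∀ y, S (fun x => u (c + x)) y = S u (c + y) := fun y => by simp [S, add_assoc]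
  have := core0 (u := fun x => u (c + x)) (v := fun x => v (c + x)) (fun x => hu _)
    (fun x => hv _) ((Equiv.addLeft c).summable_iff.2 su) ((Equiv.addLeft c).summable_iff.2 sv)
    (by simpa only [s, t] using hc)
  simp only [s, t u] at this
  rw [t fun y => v y * (2 * S u y - ∑' x, u x), t fun y => v y ^ 2, t fun y => u y ^ 2,
    (g_sum hu hv su sv).tsum_eq] at this
  exact this

theorem Q_eq (f : ℤ × ℤ → ℝ) : Q 1 4 f = ∑' x, (f x * S f x - f x ^ 2) := by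
  refine tsum_congr fun x => ?_
  have e : ∀ d, F 1 4 x (x + d) = if d = 0 then -1 else if |d.1| + |d.2| = 1 then 1 else 0 :=
    fun d => by simp [F, Adj]; norm_num
  rw [← (Equiv.addLeft x).tsum_eq, tsum_eq_sum (s := insert 0 D4)]
  · simp only [Equiv.coe_addLeft, e, S, D4]
    repeat rw [Finset.sum_insert (by decide)]
    simp [Prod.ext_iff]
    ring
  · intro d hd
    simp only [D4, Finset.mem_insert, Finset.mem_singleton, Prod.ext_iff, Prod.fst_zero,
      Prod.snd_zero] at hd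
    rw [Equiv.coe_addLeft]
    simp only [e]
    rw [if_neg (by rintro rfl; simp at hd), if_neg, mul_zero, zero_mul]
    intro h
    rcases abs_cases d.1 with k | k <;> rcases abs_cases d.2 with l | l <;> omega

theorem bound {f : ℤ × ℤ → ℝ} (h0 : ∀ x, 0 ≤ f x) (h1 : HasSum f 1) : Q 1 4 f ≤ 1 / 4 := by
  let u : ℤ × ℤ → ℝ := fun x => if (x.1 + x.2) % 2 = 0 then f x else 0
  let v : ℤ × ℤ → ℝ := fun x => if (x.1 + x.2) % 2 = 0 then 0 else f x
  have hu : ∀ x, 0 ≤ u x := fun x => by simp only [u]; split_ifs <;> simp [h0]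
  have hv : ∀ x, 0 ≤ v x := fun x => by simp only [v]; split_ifs <;> simp [h0]
  have ad : ∀ x, u x + v x = f x := fun x => by simp only [u, v]; split_ifs <;> simp
  have su : Summable u := .of_nonneg_of_le hu (fun x => by linarith [ad x, hv x]) h1.summable
  have sv : Summable v := .of_nonneg_of_le hv (fun x => by linarith [ad x, hu x]) h1.summable
  have c1 := core hu hv su sv (r := 1) fun y hy => by
    by_contra k
    exact hy (if_pos (by omega))
  have c2 := core hv hu sv su (r := 0) fun y hy => by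
    by_contra k
    exact hy (if_neg k)
  have t : ∑' x, u x + ∑' x, v x = 1 := by
    rw [← su.tsum_add sv, ← h1.tsum_eq]; exact tsum_congr ad
  have e : ∀ x, f x * S f x - f x ^ 2 = v x * S u x + u x * S v x - (u x ^ 2 + v x ^ 2) :=
    fun x => by
      simp only [S, D4]
      repeat rw [Finset.sum_insert (by decide)]
      simp only [Finset.sum_singleton, u, v, Prod.fst_add, Prod.snd_add]
      split_ifs <;> first | omega | ring
  rw [Q_eq, tsum_congr e, (((S_sum hu hv su sv).hasSum.add (S_sum hv hu sv su).hasSum).sub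
    ((sq_sum hu su).hasSum.add (sq_sum hv sv).hasSum)).tsum_eq]
  nlinarith [sq_nonneg (∑' x, u x - ∑' x, v x)]

/-- Empirical measure of one period. -/
noncomputable def em (w : ℕ → ℤ × ℤ) (x : ℤ × ℤ) : ℝ :=
  ∑ i ∈ Finset.range 8, if x = w i then 1 / 8 else 0

theorem inF (p : Fin 8 → ℤ × ℤ) (hp : ∀ i, |(p (i + 1)).1 - (p i).1| + |(p (i + 1)).2 - (p i).2| = 1) :
    InF (em fun i => p (Fin.ofNat 8 i)) := by
  set w : ℕ → ℤ × ℤ := fun i => p (Fin.ofNat 8 i) with hw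
  have per : ∀ k i, w (8 * k + i) = w i := fun k i => by
    simp only [hw]; congr 1; ext; simp [Fin.ofNat]
  refine ⟨fun x => Finset.sum_nonneg fun i _ => by split_ifs <;> norm_num, ?_,
    fun k => 8 * k, fun _ => w, tendsto_id.const_mul_atTop' (by norm_num), fun k i _ => ?_,
    fun x => ?_⟩
  · have := hasSum_sum (s := Finset.range 8) fun i _ => hasSum_ite_eq (w i) (1 / 8 : ℝ)
    rw [Finset.sum_const, Finset.card_range, nsmul_eq_mul, show ((8 : ℕ) : ℝ) * (1 / 8) = 1 by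
      norm_num] at this
    exact this
  · have : Fin.ofNat 8 (i + 1) = Fin.ofNat 8 i + 1 := by ext; simp [Fin.ofNat, Fin.val_add]
    simp only [hw, Adj, this, hp]
  · have c : ∀ k : ℕ, (((Finset.range (8 * k)).filter fun i => w i = x).card : ℝ) =
        8 * k * em w x := fun k => by
      rw [Finset.card_filter]
      push_cast
      induction k with
      | zero => simp
      | succ k ih =>
        rw [mul_add, Finset.sum_range_add, ih]
        simp only [per, em, eq_comm (a := x)]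
        push_cast
        rw [mul_add, add_mul, mul_one, Finset.mul_sum _ _ 8]
        congr 1
        exact Finset.sum_congr rfl fun i _ => by split_ifs <;> norm_num
    refine tendsto_const_nhds.congr' ?_
    filter_upwards [eventually_gt_atTop 0] with k hk
    have p0 := per k 0
    rw [add_zero] at p0
    rw [lt, Finset.range_add_one, Finset.filter_insert, p0, eq_div_iff (by positivity)]
    split_ifs
    · rw [Finset.card_insert_of_notMem (by simp)]
      push_cast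
      rw [c]; ring
    · push_cast
      rw [c]; ring

/-- The square, run twice. -/
def p₁ : Fin 8 → ℤ × ℤ := ![(0, 0), (1, 0), (1, 1), (0, 1), (0, 0), (1, 0), (1, 1), (0, 1)]

/-- The two by three rectangle. -/
def p₂ : Fin 8 → ℤ × ℤ := ![(0, 0), (1, 0), (1, 1), (0, 1), (0, 0), (-1, 0), (-1, 1), (0, 1)]

theorem val (p : Fin 8 → ℤ × ℤ) : Q 1 4 (em fun i => p (Fin.ofNat 8 i)) =
    ∑ x ∈ Finset.univ.image p, (em (fun i => p (Fin.ofNat 8 i)) x *
      S (em fun i => p (Fin.ofNat 8 i)) x - em (fun i => p (Fin.ofNat 8 i)) x ^ 2) := by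
  rw [Q_eq, tsum_eq_sum]
  intro x hx
  have : em (fun i => p (Fin.ofNat 8 i)) x = 0 := Finset.sum_eq_zero fun i _ =>
    if_neg fun e => hx (Finset.mem_image.2 ⟨_, Finset.mem_univ _, e.symm⟩)
  rw [this]; ring

theorem result : ∃ β γ : ℝ, 0 < β ∧ β < γ ∧ ∃ f f' : ℤ × ℤ → ℝ, IsMax β γ f ∧ IsMax β γ f' ∧
    ∀ φ : ℤ × ℤ → ℤ × ℤ, f' ≠ f ∘ φ := by
  refine ⟨1, 4, one_pos, by norm_num, em fun i => p₁ (Fin.ofNat 8 i),
    em fun i => p₂ (Fin.ofNat 8 i), ⟨inF p₁ (by decide), fun h hh => ?_⟩,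
    ⟨inF p₂ (by decide), fun h hh => ?_⟩, fun φ e => ?_⟩
  · refine (bound hh.1 hh.2.1).trans_eq ?_
    rw [val, show Finset.univ.image p₁ = {(0, 0), (1, 0), (1, 1), (0, 1)} by decide]
    simp only [S, D4]
    repeat rw [Finset.sum_insert (by decide)]
    simp [em, Finset.sum_range_succ, p₁, Fin.ofNat]
    norm_num
  · refine (bound hh.1 hh.2.1).trans_eq ?_
    rw [val, show Finset.univ.image p₂ = {(0, 0), (1, 0), (1, 1), (0, 1), (-1, 0), (-1, 1)} by
      decide]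
    simp only [S, D4]
    repeat rw [Finset.sum_insert (by decide)]
    simp [em, Finset.sum_range_succ, p₂, Fin.ofNat]
    norm_num
  · have := congrFun e (1, 0)
    simp only [Function.comp] at this
    generalize φ (1, 0) = x at this
    simp [em, Finset.sum_range_succ, p₁, p₂, Fin.ofNat] at this
    split_ifs at this <;> norm_num at this

end Pool.Agent.Results.MP_840660_pr.TwoMax
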